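import Pool.Agent.Helper70.BU.Goals

/-!
# Packet TW-DIM (MP_c7dfba_nt): the dimension of the space of multihomogeneous polynomials
-/

namespace Pool.Agent.Helper46.BU

open MvPolynomial Pool.Agent.Helper70.BU

variable {ι κ : Type}

lemma weight_wt [Fintype ι] [DecidableEq κ] (b : ι → κ) (d : ι →₀ ℕ) (k : κ) :
    Finsupp.weight (wt b) d k = ∑ i with b i = k, d i := by
  rw [Finsupp.weight_apply, Finsupp.sum_fintype _ _ (by intro i; simp)]
  rw [Finset.sum_apply, Finset.sum_filter]
  refine Finset.sum_congr rfl fun i _ => ?_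
  simp only [wt, Pi.smul_apply, Pi.single_apply, smul_eq_mul, mul_ite, mul_one, mul_zero]
  by_cases h : b i = k
  · simp [h]
  · rw [if_neg h, if_neg (fun h' => h h'.symm)]

/-- exponents as families of functions on the blocks -/
noncomputable def eqv [Fintype ι] (b : ι → κ) : (ι →₀ ℕ) ≃ (∀ k, {i // b i = k} → ℕ) :=
  Finsupp.equivFunOnFinite.trans
    ((Equiv.arrowCongr (Equiv.sigmaFiberEquiv b).symm (Equiv.refl ℕ)).trans
      (Equiv.piCurry (fun _ _ => ℕ)))

lemma eqv_apply [Fintype ι] (b : ι → κ) (d : ι →₀ ℕ) (k : κ) (i : {i // b i = k}) :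
    eqv b d k i = d i := rfl

/-- the exponents of multidegree `m` -/
noncomputable def eqS [Fintype ι] [DecidableEq ι] [DecidableEq κ] (b : ι → κ) (m : κ → ℕ) :
    {d : ι →₀ ℕ | Finsupp.weight (wt b) d = m} ≃ (∀ k, Sym {i // b i = k} (m k)) :=
  (((eqv b).subtypeEquiv (p := fun d => Finsupp.weight (wt b) d = m)
    (q := fun g => ∀ k, ∑ i, g k i = m k) (by
      intro d
      rw [_root_.funext_iff]
      refine forall_congr' fun k => ?_
      rw [weight_wt]
      have : ∑ i with b i = k, d i = ∑ i : {i // b i = k}, eqv b d k i := by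
        simp only [eqv_apply]
        exact (Finset.sum_subtype (Finset.univ.filter (fun i => b i = k)) (by simp) (fun i => d i))
      rw [this])).trans (Equiv.subtypePiEquivPi (p := fun k (g : {i // b i = k} → ℕ) => ∑ i, g i = m k))).trans
    (Equiv.piCongrRight fun k => (Sym.equivNatSumOfFintype {i // b i = k} (m k)).symm)

theorem dim : DIM := by
  intro ι κ _ _ _ _ b m hb
  have hH : H b m = restrictSupport ℂ {d : ι →₀ ℕ | Finsupp.weight (wt b) d = m} :=
    weightedHomogeneousSubmodule_eq_finsupp_supported ℂ (wt b) m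
  have hfin : Finite {d : ι →₀ ℕ | Finsupp.weight (wt b) d = m} := Finite.of_equiv _ (eqS b m).symm
  have hb' := basisRestrictSupport ℂ {d : ι →₀ ℕ | Finsupp.weight (wt b) d = m}
  rw [hH]
  refine ⟨Module.Finite.of_basis hb', ?_⟩
  rw [Module.finrank_eq_nat_card_basis hb', Nat.card_congr (eqS b m), Nat.card_pi]
  refine Finset.prod_congr rfl fun k _ => ?_
  rw [Nat.card_eq_fintype_card, Sym.card_sym_eq_choose, Fintype.card_subtype]
  have h1 := hb k
  have h2 : (Finset.univ.filter (fun i => b i = k)).card = bn b k := rfl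
  rw [h2]
  have h3 : bn b k + m k - 1 = m k + (bn b k - 1) := by omega
  rw [h3]
  exact Nat.choose_symm_of_eq_add rfl

end Pool.Agent.Helper46.BU
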